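import Pool.Agent.Helper48.OD.St

set_option autoImplicit false

namespace Pool.Agent.Helper53.OD

open Pool.Agent.Helper43.GD Pool.Agent.Helper48.OD

private theorem jac {L : Type} [CommRing L] {K : Subgroup Lˣ} {P P' I : Ideal L}
    (hI : ∀ d : L, d ∈ I ↔ d ∈ P ∧ ∃ z ∈ K, (z : L) = 1 + d) (hP' : P'.IsMaximal) {d : L}
    (hd : d ∈ I) : d ∈ P' := by
  by_contra hn
  obtain ⟨r, p, hp, e⟩ := hP'.exists_inv hn
  have h1 : -r * d ∈ I := I.mul_mem_left _ hd
  obtain ⟨_, z, _, hz⟩ := (hI _).1 h1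
  have h2 : (z : L) = p := by rw [hz, ← e]; ring
  apply hP'.ne_top
  apply Ideal.eq_top_of_isUnit_mem _ hp
  rw [← h2]
  exact z.isUnit

theorem hB5K (h1 : StB4K) : StB5K := by
  intro L _ K hK
  haveI := hK.fin
  haveI := hK.nt
  obtain ⟨P₀, hP₀⟩ := Ideal.exists_maximal L
  obtain ⟨I, hI⟩ := h1 L K hK P₀ hP₀
  have hIP : ∀ d ∈ I, d ∈ P₀ := fun d hd => ((hI d).1 hd).1
  have hin : ∀ w ∈ K, ¬ IsUnit (1 - (w : L)) → (w : L) - 1 ∈ I := by
    intro w hw hn
    obtain ⟨P, hP, hm⟩ := exists_max_ideal_of_mem_nonunits (a := 1 - (w : L)) hn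
    obtain ⟨J, hJ⟩ := h1 L K hK P hP
    have hd : (w : L) - 1 ∈ P := by
      have := P.neg_mem hm
      rwa [neg_sub] at this
    have hj : (w : L) - 1 ∈ J := (hJ _).2 ⟨hd, w, hw, by ring⟩
    exact (hI _).2 ⟨jac hJ hP₀ hj, w, hw, by ring⟩
  have hsub : ∀ y ∈ K, ∀ z ∈ K, (y : L) - (z : L) ∈ I ∨ ∃ u ∈ K, (u : L) = (y : L) - (z : L) := by
    intro y hy z hz
    have hw : y⁻¹ * z ∈ K := K.mul_mem (K.inv_mem hy) hz
    have ew : (y : L) * ((y⁻¹ * z : Lˣ) : L) = (z : L) := by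
      rw [← Units.val_mul, mul_inv_cancel_left]
    by_cases hc : IsUnit (1 - ((y⁻¹ * z : Lˣ) : L))
    · right
      obtain ⟨u, hu, e⟩ := hK.cl _ hw hc
      refine ⟨y * u, K.mul_mem hy hu, ?_⟩
      rw [Units.val_mul, e, mul_sub, mul_one, ew]
    · left
      have h2 := I.mul_mem_left (-(y : L)) (hin _ hw hc)
      have e2 : -(y : L) * (((y⁻¹ * z : Lˣ) : L) - 1) = (y : L) - (z : L) := by
        rw [neg_mul, mul_sub, ew, mul_one]; ring
      rwa [e2] at h2
  have hadd : ∀ y ∈ K, ∀ d ∈ I, ∃ u ∈ K, (u : L) = (y : L) + d := by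
    intro y hy d hd
    have h2 : ((y⁻¹ : Lˣ) : L) * d ∈ I := I.mul_mem_left _ hd
    obtain ⟨_, z, hz, e⟩ := (hI _).1 h2
    refine ⟨y * z, K.mul_mem hy hz, ?_⟩
    rw [Units.val_mul, e, mul_add, mul_one, Units.mul_inv_cancel_left]
  let N : AddSubgroup L :=
    { carrier := {a | a ∈ I ∨ ∃ u ∈ K, (u : L) = a}
      zero_mem' := Or.inl I.zero_mem
      add_mem' := by
        rintro a b (ha | ⟨y, hy, rfl⟩) (hb | ⟨z, hz, rfl⟩)
        · exact Or.inl (I.add_mem ha hb)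
        · right
          obtain ⟨u, hu, e⟩ := hadd z hz a ha
          exact ⟨u, hu, by rw [e, add_comm]⟩
        · exact Or.inr (hadd y hy b hb)
        · have := hsub y hy (-1 * z) (K.mul_mem hK.neg hz)
          rw [Units.val_mul, Units.val_neg, Units.val_one, neg_mul, one_mul, sub_neg_eq_add] at this
          exact this
      neg_mem' := by
        rintro a (ha | ⟨y, hy, rfl⟩)
        · exact Or.inl (I.neg_mem ha)
        · exact Or.inr ⟨-1 * y, K.mul_mem hK.neg hy, by simp⟩ }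
  have hN : ∀ a : L, a ∈ N := by
    obtain ⟨v, hv, hg⟩ := hK.gen
    refine hg N (Or.inr ⟨1, K.one_mem, by simp⟩) ?_
    rintro a (ha | ⟨y, hy, rfl⟩)
    · exact Or.inl (I.mul_mem_left _ ha)
    · exact Or.inr ⟨v * y, K.mul_mem hv hy, by simp⟩
  have hnu : ∀ a ∈ I, ¬ IsUnit a := by
    intro a ha hu
    exact hP₀.ne_top (Ideal.eq_top_of_isUnit_mem _ (hIP a ha) hu)
  constructor
  · refine IsLocalRing.of_nonunits_add ?_
    intro a b ha hb
    have ha' : a ∈ I := by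
      rcases hN a with h | ⟨u, _, rfl⟩
      · exact h
      · exact absurd u.isUnit ha
    have hb' : b ∈ I := by
      rcases hN b with h | ⟨u, _, rfl⟩
      · exact h
      · exact absurd u.isUnit hb
    exact hnu _ (I.add_mem ha' hb')
  · intro u
    rcases hN (u : L) with h | ⟨z, hz, e⟩
    · exact absurd u.isUnit (hnu _ h)
    · rwa [← Units.ext e]

end Pool.Agent.Helper53.OD
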